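import Pool.Agent.H711R3.Final

set_option autoImplicit false

open UpperHalfPlane
open scoped MatrixGroups

namespace Pool.Agent.Results.MP_c5bc55_gt.VaryingExponent

open Pool.Agent.H711R3

/-- **The critical exponent is not constant on quasiconformal deformation spaces.**
There is an infinitely generated Fuchsian group `Γ₀` of the first kind (a discrete subgroup of
`PSL(2,ℝ)`, not finitely generated, whose limit set is the whole circle at infinity) and there are
two quasiconformal deformations `w₁`, `w₂` of `Γ₀` (quasiconformal homeomorphisms of the hyperbolic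
plane conjugating `Γ₀` into `PSL(2,ℝ)`) such that the critical exponents of the Fuchsian groups
`w₁ Γ₀ w₁⁻¹` and `w₂ Γ₀ w₂⁻¹` are different; more precisely
`0 < δ(w₂ Γ₀ w₂⁻¹) < δ(w₁ Γ₀ w₁⁻¹) ≤ 1`. -/
theorem result : ∃ Γ₀ : Subgroup PSL(2, ℝ), IsInfGenFirstKind Γ₀ ∧
    ∃ w₁ ∈ qcDeformations Γ₀, ∃ w₂ ∈ qcDeformations Γ₀,
      0 < criticalExponent (conjBy w₂ Γ₀) ∧
      criticalExponent (conjBy w₂ Γ₀) < criticalExponent (conjBy w₁ Γ₀) ∧
      criticalExponent (conjBy w₁ Γ₀) ≤ 1 := main

end Pool.Agent.Results.MP_c5bc55_gt.VaryingExponent
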